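import Pool.Agent.MP_db5b97_nt.H85.Bas

/-! Lattices in small permutation modules are permutation lattices at a large prime. -/

namespace Pool.Agent.MP_db5b97_nt.H54

open Pool.Agent.MP_db5b97_nt.H85

section Nil

variable {p : ℕ} [hp : Fact p.Prime] {W : Type} [AddCommGroup W] [Module (ZMod p) W]

theorem e_nil (T : Module.End (ZMod p) W) (hT : T ^ p = 1) : (T - 1) ^ p = 0 := by
  obtain ⟨r, hr⟩ := (Commute.one_right (T - 1)).exists_add_pow_prime_eq hp.out
  have h0 : (p : Module.End (ZMod p) W) = 0 := by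
    ext w
    rw [Module.End.natCast_apply, ← Nat.cast_smul_eq_nsmul (ZMod p), ZMod.natCast_self, zero_smul]
    rfl
  rw [sub_add_cancel, hT, h0, one_pow] at hr
  simpa using hr.symm

theorem e_ker (D : Module.End (ZMod p) W) (K : Set W) (hK : ∀ w ∈ K, D w ∈ K)
    (h : ∀ w ∈ K, D w = 0 → w = 0) (n : ℕ) : ∀ w ∈ K, (D ^ n) w = 0 → w = 0 := by
  induction n with
  | zero => simp
  | succ n ih =>
    intro w hw h0
    rw [pow_succ, Module.End.mul_apply] at h0
    exact h w hw (ih _ (hK w hw) h0)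

theorem e_span (D : Module.End (ZMod p) W) (F : Submodule (ZMod p) W) (hF : ∀ w ∈ F, D w ∈ F)
    (h : ∀ w, ∃ w', w - D w' ∈ F) (n : ℕ) : ∀ w, ∃ w', w - (D ^ n) w' ∈ F := by
  induction n with
  | zero => exact fun w => ⟨w, by simp⟩
  | succ n ih =>
    intro w
    obtain ⟨w1, h1⟩ := h w
    obtain ⟨w2, h2⟩ := ih w1
    refine ⟨w2, ?_⟩
    have := F.add_mem h1 (hF _ h2)
    rwa [map_sub, sub_add_sub_cancel, ← Module.End.mul_apply, ← pow_succ'] at this

theorem e_ind {ι : Type} [Fintype ι] (σ : Equiv.Perm ι) (hσ : σ ^ p = 1)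
    (T : Module.End (ZMod p) W) (w : ι → W) (hw : ∀ i, T (w i) = w (σ i))
    (h : ∀ g : ι → ZMod p, (∀ i, g (σ i) = g i) → ∑ i, g i • w i = 0 → g = 0) :
    LinearIndependent (ZMod p) w := by
  rw [Fintype.linearIndependent_iff]
  intro g hg
  let S : Module.End (ZMod p) (ι → ZMod p) := LinearMap.funLeft _ _ σ.symm
  have hS : ∀ n : ℕ, ∀ g i, (S ^ n) g ((σ ^ n) i) = g i := by
    intro n
    induction n with
    | zero => simp
    | succ n ih =>
      intro g i
      rw [pow_succ', pow_succ', Module.End.mul_apply, Equiv.Perm.mul_apply]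
      simpa [S] using ih g i
  have hSp : S ^ p = 1 := LinearMap.ext fun g => funext fun i => by
    simpa [hσ] using hS p g i
  have key := e_ker (S - 1) {g : ι → ZMod p | ∑ i, g i • w i = 0} (fun g hg => ?_)
    (fun g hg h0 => ?_) p g hg (by rw [e_nil S hSp]; rfl)
  · exact fun i => congrFun key i
  · have e : ∑ i, S g i • w i = T (∑ i, g i • w i) := by
      rw [← Equiv.sum_comp σ, map_sum]
      simp [S, hw]
    simp only [Set.mem_ofPred_eq] at hg ⊢
    simp only [LinearMap.sub_apply, Module.End.one_apply, Pi.sub_apply, sub_smul,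
      Finset.sum_sub_distrib, e, hg, map_zero, sub_zero]
  · refine h g (fun i => ?_) hg
    have := congrFun h0 (σ i)
    simp only [S, LinearMap.sub_apply, Module.End.one_apply, Pi.sub_apply, LinearMap.funLeft_apply,
      Equiv.symm_apply_apply, Pi.zero_apply, sub_eq_zero] at this
    exact this.symm

end Nil

section Gen

variable {G M : Type} [Group G] [AddCommGroup M] [DistribMulAction G M]

theorem e_tel (x : G) (n : ℕ) (m : M) : x • Nm x n m - Nm x n m = x ^ n • m - m := by
  have := Finset.sum_range_sub (fun i => x ^ i • m) n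
  simp only [pow_zero, one_smul] at this
  rw [← this, Nm_apply, Finset.smul_sum, ← Finset.sum_sub_distrib]
  simp only [smul_smul, pow_succ']

theorem e_comm (x : G) (n : ℕ) (m : M) : Nm x n (x • m) = x • Nm x n m := by
  simp only [Nm_apply, Finset.smul_sum, smul_smul, ← pow_succ, ← pow_succ']

theorem e_powfix {x : G} {m : M} (h : x • m = m) (n : ℕ) : x ^ n • m = m := by
  induction n with
  | zero => simp
  | succ n ih => rw [pow_succ, mul_smul, h, ih]

theorem e_nmfix {x : G} {m : M} (h : x • m = m) (n : ℕ) : Nm x n m = n • m := by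
  simp [Nm_apply, e_powfix h]

theorem e_mod {x : G} {p : ℕ} {m : M} (h : x ^ p • m = m) (n : ℕ) :
    x ^ (n % p) • m = x ^ n • m := by
  conv_rhs => rw [← Nat.mod_add_div n p, pow_add, pow_mul, mul_smul, e_powfix h]

theorem e_zind {p : ℕ} [hp : Fact p.Prime] {W : Type} [AddCommGroup W] [Module (ZMod p) W]
    (π : M →+ W) (htf : ∀ m : M, p • m = 0 → m = 0)
    {ι : Type} [Fintype ι] (v : ι → M) (h : LinearIndependent (ZMod p) fun i => π (v i)) :
    LinearIndependent ℤ v := by
  rw [Fintype.linearIndependent_iff] at h ⊢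
  have key : ∀ n : ℕ, ∀ g : ι → ℤ, ∑ i, g i • v i = 0 → ∀ i, (p : ℤ) ^ n ∣ g i := by
    intro n
    induction n with
    | zero => simp
    | succ n ih =>
      intro g hg
      have h1 := h (fun i => (g i : ZMod p)) (by
        simp only [Int.cast_smul_eq_zsmul, ← map_zsmul, ← map_sum, hg, map_zero])
      simp only [ZMod.intCast_zmod_eq_zero_iff_dvd] at h1
      choose c hc using h1
      have h2 := ih c (htf _ (by
        rw [← hg, Finset.smul_sum]
        simp only [hc, mul_smul, natCast_zsmul]))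
      intro i
      rw [hc i, pow_succ']
      exact mul_dvd_mul_left _ (h2 i)
  intro g hg i
  refine Int.eq_zero_of_dvd_of_natAbs_lt_natAbs (key (g i).natAbs g hg i) ?_
  rw [Int.natAbs_pow, Int.natAbs_natCast]
  exact Nat.lt_pow_self hp.out.one_lt

variable {A : Type} [AddCommGroup A] [DistribMulAction G A]

/-- a stable family that is a basis modulo `p` -/
theorem e_fam {p : ℕ} [hp : Fact p.Prime] {W : Type} [AddCommGroup W] [Module (ZMod p) W]
    [Module.Finite ℤ M] (π : M →+ W) (hπ : ∀ m, π m = 0 → ∃ m', m = p • m')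
    (htf : ∀ m : M, p • m = 0 → m = 0) {ι : Type} [Fintype ι] (v : ι → M)
    (h : LinearIndependent (ZMod p) fun i => π (v i))
    (hs : ∀ m, π m ∈ Submodule.span (ZMod p) (Set.range fun i => π (v i))) (P : Subgroup G)
    (hP : ∀ g ∈ P, ∀ i, ∃ j, g • v i = v j) (hA : ∀ Q : Subgroup G, H90 A Q) :
    ∃ t : ℕ, t.Coprime p ∧ Kill A P (⊤ : AddSubgroup M) t := by
  have hz := (e_zind π htf v h).linearIndepOn_id
  let _ : MulAction P (Set.range v) :=
    { smul := fun u b => ⟨(u : G) • (b : M), by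
        obtain ⟨i, hi⟩ := b.2
        obtain ⟨j, hj⟩ := hP u u.2 i
        exact ⟨j, by rw [← hj, hi]⟩⟩
      one_smul := fun b => Subtype.ext (one_smul G (b : M))
      mul_smul := fun s t b => Subtype.ext (mul_smul (s : G) (t : G) (b : M)) }
  have hk := kill_perm (A := A) (U := P) (fun b : Set.range v => (b : M)) hz (fun _ _ => rfl) hA
  rw [Subtype.range_coe] at hk
  have h1 : ∀ w ∈ Submodule.span (ZMod p) (Set.range fun i => π (v i)),
      ∃ f ∈ Submodule.span ℤ (Set.range v), π f = w := by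
    intro w hw
    induction hw using Submodule.span_induction with
    | mem w hw =>
      obtain ⟨i, rfl⟩ := hw
      exact ⟨v i, Submodule.subset_span ⟨i, rfl⟩, rfl⟩
    | zero => exact ⟨0, zero_mem _, map_zero _⟩
    | add _ _ _ _ h1 h2 =>
      obtain ⟨f1, a1, rfl⟩ := h1
      obtain ⟨f2, a2, rfl⟩ := h2
      exact ⟨f1 + f2, add_mem a1 a2, map_add _ _ _⟩
    | smul c _ _ h1 =>
      obtain ⟨f1, a1, rfl⟩ := h1
      obtain ⟨n, rfl⟩ := ZMod.natCast_zmod_surjective c
      exact ⟨n • f1, nsmul_mem a1 n, by rw [map_nsmul, Nat.cast_smul_eq_nsmul]⟩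
  obtain ⟨r, hr, hr'⟩ := Submodule.exists_sub_one_mem_and_smul_le_of_fg_of_le_sup
    (I := Ideal.span {(p : ℤ)}) (N := Submodule.span ℤ (Set.range v)) (N' := ⊤) (P := ⊤)
    Module.Finite.fg_top le_rfl fun m _ => by
      obtain ⟨f, hf, e⟩ := h1 _ (hs m)
      obtain ⟨m', hm'⟩ := hπ (m - f) (by rw [map_sub, e, sub_self])
      rw [sub_eq_iff_eq_add', ← natCast_zsmul] at hm'
      rw [hm']
      exact Submodule.add_mem_sup hf
        (Submodule.smul_mem_smul (Ideal.mem_span_singleton_self _) Submodule.mem_top)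
  refine ⟨1 * r.natAbs, ?_, hk.scale le_top fun y _ => ?_⟩
  · rw [one_mul, Nat.coprime_comm, hp.out.coprime_iff_not_dvd, ← Int.natCast_dvd]
    intro hd
    have := dvd_sub hd (Ideal.mem_span_singleton.1 hr)
    rw [sub_sub_cancel, ← Int.natCast_one, Int.natCast_dvd_natCast, Nat.dvd_one] at this
    exact hp.out.one_lt.ne' this
  · have : r • y ∈ Submodule.span ℤ (Set.range v) :=
      hr' (Submodule.smul_mem_pointwise_smul y r ⊤ Submodule.mem_top)
    rw [Submodule.mem_toAddSubgroup, ← natCast_zsmul]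
    rcases Int.natAbs_eq r with e | e
    · rwa [← e]
    · rw [← neg_mem_iff, ← neg_smul, ← e]
      exact this

/-- lattices generated by pure elements -/
theorem e_perm {p : ℕ} [hp : Fact p.Prime] [Module.Finite ℤ M] (P : Subgroup G) (x : G)
    (htf : ∀ m : M, p • m = 0 → m = 0) (hxP : x ∈ P) (hx : ∀ m : M, x ^ p • m = m)
    (hfix : ∀ m : M, x • m = m → ∀ g ∈ P, g • m = m)
    (hker : ∀ m : M, Nm x p m = 0 → ∃ m', m = x • m' - m')
    (hpure : ∀ R : AddSubgroup M, (∀ m, (∀ g ∈ P, ∃ i : ℕ, g • m = x ^ i • m) → m ∈ R) →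
      (∀ m, x • m - m ∈ R) → (∀ m, p • m ∈ R) → ∀ m, m ∈ R)
    (hA : ∀ Q : Subgroup G, H90 A Q) :
    ∃ t : ℕ, t.Coprime p ∧ Kill A P (⊤ : AddSubgroup M) t := by
  obtain ⟨W, _, _, _, π, T, hπs, hπ, hT⟩ : ∃ (W : Type) (_ : AddCommGroup W)
      (_ : Module (ZMod p) W) (_ : Module.Finite (ZMod p) W) (π : M →+ W)
      (T : Module.End (ZMod p) W), Function.Surjective π ∧ (∀ m, π m = 0 → ∃ m', m = p • m') ∧
      ∀ m, T (π m) = π (x • m) := by
    have hs : Function.Surjective (ModN.mkQ (G := M) p) := Submodule.mkQ_surjective _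
    have h0 : ∀ m, ModN.mkQ (G := M) p m = 0 ↔ ∃ m', m = p • m' := fun m => by
      change Submodule.Quotient.mk m = 0 ↔ _
      rw [Submodule.Quotient.mk_eq_zero]
      simp [eq_comm]
    refine ⟨ModN M p, inferInstance, inferInstance, ?_, ModN.mkQ p, ModN.liftEquiv'.symm
      ⟨(ModN.mkQ p).comp (DistribSMul.toAddMonoidHom M x), fun g => ?_⟩, hs,
      fun m => (h0 m).1, fun _ => rfl⟩
    · have : Module.Finite ℤ (ModN M p) := Module.Finite.quotient _ _
      exact Module.Finite.of_restrictScalars_finite ℤ _ _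
    · rw [← map_nsmul, AddMonoidHom.comp_apply, map_nsmul, h0]
      exact ⟨_, rfl⟩
  have hp0 : ∀ m, π (p • m) = 0 := fun m => by
    rw [map_nsmul, ← Nat.cast_smul_eq_nsmul (ZMod p), ZMod.natCast_self, zero_smul]
  have hTn : ∀ (n : ℕ) m, (T ^ n) (π m) = π (x ^ n • m) := by
    intro n
    induction n with
    | zero => simp
    | succ n ih => intro m; rw [pow_succ', Module.End.mul_apply, ih, hT, smul_smul, ← pow_succ']
  have hTp : T ^ p = 1 := LinearMap.ext fun w => by
    obtain ⟨m, rfl⟩ := hπs w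
    rw [hTn, hx, Module.End.one_apply]
  let v0 : M ⊕ M → W := Sum.elim (fun m => π (Nm x p m)) π
  obtain ⟨b1, h11, -, h12, h13⟩ := exists_linearIndepOn_extension (K := ZMod p) (v := v0)
    (t := Sum.inl '' {m | ∀ g ∈ P, ∃ i : ℕ, g • m = x ^ i • m}) (linearIndepOn_empty _ _)
    (Set.empty_subset _)
  obtain ⟨b2, h21, h22, h23, h24⟩ := exists_linearIndepOn_extension (K := ZMod p) (v := v0)
    (t := b1 ∪ Sum.inr '' {m | x • m = m}) h13 Set.subset_union_left
  have hS : ∀ m, Sum.inl m ∈ b2 → ∀ g ∈ P, ∃ i : ℕ, g • m = x ^ i • m := fun m hm => by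
    rcases h21 hm with h | h
    · simpa using h11 h
    · simp at h
  have hY : ∀ m, Sum.inr m ∈ b2 → x • m = m := fun m hm => by
    rcases h21 hm with h | h
    · simpa using h11 h
    · simpa using h
  let S := {m // Sum.inl m ∈ b2}
  let Y := {m // Sum.inr m ∈ b2}
  have hu : LinearIndependent (ZMod p) (v0 ∘ Sum.map (fun s : S => s.1) (fun s : Y => s.1)) :=
    LinearIndependent.comp h24
      (Sum.elim (fun s : S => (⟨_, s.2⟩ : b2)) (fun s : Y => (⟨_, s.2⟩ : b2))) (by
        rintro (s | s) (t | t) h <;> have := congrArg Subtype.val h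
        · exact congrArg Sum.inl (Subtype.ext (Sum.inl_injective this))
        · cases this
        · cases this
        · exact congrArg Sum.inr (Subtype.ext (Sum.inr_injective this))) |> fun h => by
      convert h using 1
      ext (s | s) <;> rfl
  have hfin : Finite (S ⊕ Y) := hu.finite
  have := Finite.of_injective (Sum.inl : S → S ⊕ Y) Sum.inl_injective
  have := Finite.of_injective (Sum.inr : Y → S ⊕ Y) Sum.inr_injective
  have := Fintype.ofFinite S
  have := Fintype.ofFinite Y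
  let v : (S × ZMod p) ⊕ Y → M := Sum.elim (fun q => x ^ q.2.val • q.1.1) fun y => y.1
  let σ : Equiv.Perm ((S × ZMod p) ⊕ Y) :=
    Equiv.sumCongr (Equiv.prodCongr (Equiv.refl _) (Equiv.addRight 1)) (Equiv.refl _)
  have hσ : ∀ i, x • v i = v (σ i) := by
    rintro (⟨s, k⟩ | y)
    · have : Fact (1 < p) := ⟨hp.out.one_lt⟩
      simp [v, σ, ZMod.val_add, ZMod.val_one, e_mod (hx _), pow_succ', mul_smul]
    · exact hY _ y.2
  have hσn : ∀ (n : ℕ) s k, (σ ^ n) (Sum.inl (s, k)) = Sum.inl (s, k + n) := by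
    intro n s
    induction n with
    | zero => simp
    | succ n ih =>
      intro k
      rw [pow_succ', Equiv.Perm.mul_apply, ih]
      simp [σ, add_assoc]
  have hσp : σ ^ p = 1 := by
    ext1 (⟨s, k⟩ | y)
    · simp [hσn]
    · exact Equiv.Perm.pow_apply_eq_self_of_apply_eq_self rfl p
  have hsum : ∀ m : M, ∑ k : ZMod p, x ^ k.val • m = Nm x p m := by
    intro m
    rw [Nm_apply]
    refine Finset.sum_bij (fun k _ => k.val) (fun k _ => Finset.mem_range.2 (ZMod.val_lt k))
      (fun a _ b _ h => ZMod.val_injective p h) (fun n hn => ?_) fun _ _ => rfl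
    exact ⟨n, Finset.mem_univ _, ZMod.val_cast_of_lt (Finset.mem_range.1 hn)⟩
  set F := Submodule.span (ZMod p) (Set.range fun i => π (v i)) with hF
  have hF1 : ∀ s : S, π s.1 ∈ F := fun s => Submodule.subset_span ⟨Sum.inl (s, 0), by simp [v]⟩
  have hFT : ∀ w ∈ F, T w ∈ F := by
    refine fun w hw => (Submodule.span_le (p := F.comap T)).2 ?_ hw
    rintro _ ⟨i, rfl⟩
    exact Submodule.subset_span ⟨σ i, by simp only [hT, hσ]⟩
  have hF2 : ∀ y, x • y = y → π y ∈ F := by
    refine fun y hy => (Submodule.span_le (p := F)).2 ?_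
      (h23 ⟨Sum.inr y, Or.inr ⟨y, hy, rfl⟩, rfl⟩)
    rintro _ ⟨s | s, hs, rfl⟩
    · change π (Nm x p s) ∈ F
      rw [← hsum, map_sum]
      exact sum_mem fun k _ => Submodule.subset_span ⟨Sum.inl (⟨s, hs⟩, k), rfl⟩
    · exact Submodule.subset_span ⟨Sum.inr ⟨s, hs⟩, rfl⟩
  have hF3 : ∀ w ∈ Submodule.span (ZMod p) (v0 '' b1), ∃ f, π f ∈ F ∧ π (Nm x p f) = w := by
    intro w hw
    induction hw using Submodule.span_induction with
    | mem w hw =>
      obtain ⟨i, hi, rfl⟩ := hw
      obtain ⟨s, -, rfl⟩ := h11 hi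
      exact ⟨s, hF1 ⟨s, h22 hi⟩, rfl⟩
    | zero => exact ⟨0, by simp, by simp⟩
    | add _ _ _ _ h1 h2 =>
      obtain ⟨f1, a1, rfl⟩ := h1
      obtain ⟨f2, a2, rfl⟩ := h2
      exact ⟨f1 + f2, by simpa using add_mem a1 a2, by simp⟩
    | smul c _ _ h1 =>
      obtain ⟨f1, a1, rfl⟩ := h1
      obtain ⟨n, rfl⟩ := ZMod.natCast_zmod_surjective c
      exact ⟨n • f1, by simpa using nsmul_mem a1 n,
        by rw [map_nsmul, map_nsmul, Nat.cast_smul_eq_nsmul]⟩
  refine e_fam π hπ htf v (e_ind σ hσp T _ (fun i => by rw [hT, hσ]) fun g hg h0 => ?_)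
    (fun m => ?_) P (fun g hg => ?_) hA
  · have hg1 : ∀ s (k : ZMod p), g (Sum.inl (s, k)) = g (Sum.inl (s, 0)) := by
      intro s k
      obtain ⟨n, rfl⟩ := ZMod.natCast_zmod_surjective k
      induction n with
      | zero => simp
      | succ n ih => simpa [σ, ih] using hg (Sum.inl (s, n))
    have := Fintype.linearIndependent_iff.1 hu
      (Sum.elim (fun s => g (Sum.inl (s, 0))) fun y => g (Sum.inr y)) (by
        rw [← h0]
        simp [Fintype.sum_sum_type, Fintype.sum_prod_type, hg1, v, v0, ← hsum, Finset.smul_sum])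
    ext (⟨s, k⟩ | y)
    · exact (hg1 s k).trans (this (Sum.inl s))
    · exact this (Sum.inr y)
  · have h1 : ∀ m, π m ∈ F ⊔ LinearMap.range (T - 1) := by
      refine hpure ((F ⊔ LinearMap.range (T - 1)).toAddSubgroup.comap π) (fun m hm => ?_)
        (fun m => ?_) fun m => ?_
      · obtain ⟨f, hf, e⟩ := hF3 _ (h12 ⟨Sum.inl m, ⟨m, hm, rfl⟩, rfl⟩)
        obtain ⟨z, hz⟩ := hπ (Nm x p (m - f)) (by rw [map_sub, map_sub, e]; exact sub_self _)
        have hz' : x • z = z := by
          refine sub_eq_zero.1 (htf _ ?_)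
          rw [smul_sub, smul_comm, ← hz, e_tel, hx, sub_self]
        obtain ⟨m', hm'⟩ := hker (m - f - z) (by rw [map_sub, e_nmfix hz', hz, sub_self])
        have : π m = π f + π z + (T - 1) (π m') := by
          rw [LinearMap.sub_apply, hT, Module.End.one_apply, ← map_sub, ← hm', ← map_add,
            ← map_add]
          congr 1
          abel
        change π m ∈ F ⊔ LinearMap.range (T - 1)
        rw [this]
        exact Submodule.add_mem_sup (add_mem hf (hF2 z hz')) ⟨_, rfl⟩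
      · exact Submodule.mem_sup_right ⟨π m, by simp [hT]⟩
      · change π (p • m) ∈ F ⊔ LinearMap.range (T - 1)
        rw [hp0]
        exact zero_mem _
    obtain ⟨w, hw⟩ := e_span (T - 1) F (fun w hw => sub_mem (hFT w hw) hw) (fun w => by
      obtain ⟨m, rfl⟩ := hπs w
      obtain ⟨a, ha, _, ⟨b, rfl⟩, e⟩ := Submodule.mem_sup.1 (h1 m)
      exact ⟨b, by rwa [← e, add_sub_cancel_right]⟩) p (π m)
    simpa [e_nil T hTp] using hw
  · rintro (⟨s, k⟩ | y)
    · obtain ⟨i, hi⟩ := hS _ s.2 _ (P.mul_mem hg (P.pow_mem hxP k.val))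
      exact ⟨Sum.inl (s, i), by simp [v, e_mod (hx _), ← hi, mul_smul]⟩
    · exact ⟨Sum.inr y, hfix _ (hY _ y.2) g hg⟩

end Gen

section Perm

variable {G X M : Type} [Group G] [MulAction G X] [AddCommGroup M] [DistribMulAction G M]
  {P : Subgroup G} {x : G} {p : ℕ} (e : M →+ (X → ℤ))
  (he : ∀ (g : G) m a, e (g • m) a = e m (g⁻¹ • a))
  (hH : ∀ g ∈ P, ∀ a : X, ∃ i : ℕ, ∀ h ∈ P, g • h • a = x ^ i • h • a) (hxP : x ∈ P)
include he hH hxP

theorem e_loc {g : G} (hg : g ∈ P) (a : X) :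
    ∃ i : ℕ, ∀ h ∈ P, ∀ m, e (g • m) (h • a) = e (x ^ i • m) (h • a) := by
  obtain ⟨i, hi⟩ := hH g hg a
  refine ⟨i, fun h hh m => ?_⟩
  have := hi _ (P.mul_mem (P.inv_mem (P.pow_mem hxP i)) hh)
  rw [mul_smul, smul_inv_smul, ← eq_inv_smul_iff] at this
  rw [he, he, this]

theorem e_fix (hi : Function.Injective e) {m : M} (hm : x • m = m) {g : G} (hg : g ∈ P) :
    g • m = m := by
  refine hi (funext fun a => ?_)
  obtain ⟨i, h⟩ := e_loc e he hH hxP hg a
  simpa [e_powfix hm] using h 1 P.one_mem m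

theorem e_nm (hi : Function.Injective e) (hx : ∀ m : M, x ^ p • m = m) (m : M) {g : G}
    (hg : g ∈ P) : Nm x p (g • m) = Nm x p m := by
  refine hi (funext fun a => ?_)
  obtain ⟨i, h⟩ := e_loc e he hH hxP hg a
  have h1 : ∀ i : ℕ, Nm x p (x ^ i • m) = Nm x p m := by
    intro i
    induction i with
    | zero => simp
    | succ i ih =>
      rw [pow_succ', mul_smul, e_comm, ih, ← sub_eq_zero, e_tel, hx, sub_self]
  rw [← h1 i]
  simp only [Nm_apply, map_sum, Finset.sum_apply]
  refine Finset.sum_congr rfl fun k _ => ?_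
  rw [he (x ^ k), he (x ^ k), h _ (P.inv_mem (P.pow_mem hxP k))]

theorem e_pure [Fintype X] (hp : p.Prime) (hi : Function.Injective e) (hx : ∀ m : M, x ^ p • m = m)
    (hker : ∀ m : M, Nm x p m = 0 → ∃ m', m = x • m' - m') (R : AddSubgroup M)
    (h1 : ∀ m, (∀ g ∈ P, ∃ i : ℕ, g • m = x ^ i • m) → m ∈ R) (h2 : ∀ m, x • m - m ∈ R)
    (h3 : ∀ m, p • m ∈ R) (m : M) : m ∈ R := by
  classical
  let J : M → Finset X := fun m => Finset.univ.filter fun a => ∃ h ∈ P, e (x • m - m) (h • a) ≠ 0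
  have hJ : ∀ m a, a ∉ J m → ∀ (n : ℕ), ∀ h ∈ P, e (x ^ n • m) (h • a) = e m (h • a) := by
    intro m a ha n
    simp only [J, Finset.mem_filter, Finset.mem_univ, true_and, not_exists, not_and, not_not,
      map_sub, Pi.sub_apply, sub_eq_zero] at ha
    induction n with
    | zero => simp
    | succ n ih =>
      intro h hh
      have := ha _ (P.mul_mem (P.inv_mem (P.pow_mem hxP n)) hh)
      rw [mul_smul, ← he, ← he, smul_smul, ← pow_succ] at this
      rw [this, ih h hh]
  induction hn : (J m).card using Nat.strong_induction_on generalizing m with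
  | _ n ih =>
  by_contra hm
  obtain ⟨g, hg, hg'⟩ : ∃ g ∈ P, ∀ i : ℕ, g • m ≠ x ^ i • m := by
    by_contra hc
    push Not at hc
    exact hm (h1 m hc)
  have key : ∀ a ∈ J m, ∀ i : ℕ, (∀ h ∈ P, e (g • m) (h • a) = e (x ^ i • m) (h • a)) →
      ∃ m' ∈ R, g • m - x ^ i • m = x • m' - m' := by
    intro a ha i hai
    obtain ⟨m', hm'⟩ := hker (g • m - x ^ i • m) (by
      rw [map_sub, e_nm e he hH hxP hi hx m hg, e_nm e he hH hxP hi hx m (P.pow_mem hxP i),
        sub_self])
    refine ⟨m', ih _ (hn ▸ Finset.card_lt_card ⟨fun b hb => ?_, fun hc => ?_⟩) m' rfl, hm'⟩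
    · by_contra hb'
      obtain ⟨h, hh, hb⟩ := (Finset.mem_filter.1 hb).2
      obtain ⟨j, hj⟩ := e_loc e he hH hxP hg b
      rw [← hm', map_sub, Pi.sub_apply, hj h hh, hJ m b hb' j h hh, hJ m b hb' i h hh] at hb
      exact hb (sub_self _)
    · obtain ⟨h, hh, hb⟩ := (Finset.mem_filter.1 (hc ha)).2
      rw [← hm', map_sub, Pi.sub_apply, hai h hh] at hb
      exact hb (sub_self _)
  have hex : ∀ i : ℕ, ∃ a ∈ J m, ∃ j : ℕ, x ^ i • m ≠ x ^ j • m ∧
      ∀ h ∈ P, e (g • m) (h • a) = e (x ^ j • m) (h • a) := by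
    intro i
    obtain ⟨a, ha⟩ := Function.ne_iff.1 (hi.ne (hg' i))
    obtain ⟨j, hj⟩ := e_loc e he hH hxP hg a
    have h4 := hj 1 P.one_mem m
    rw [one_smul] at h4
    refine ⟨a, ?_, j, fun hc => ha (by rw [h4, hc]), fun h hh => hj h hh m⟩
    by_contra hc
    have h5 := hJ m a hc i 1 P.one_mem
    have h6 := hJ m a hc j 1 P.one_mem
    rw [one_smul] at h5 h6
    exact ha (by rw [h4, h5, h6])
  obtain ⟨a1, ha1, i1, -, hi1⟩ := hex 0
  obtain ⟨a2, ha2, i2, hne, hi2⟩ := hex i1
  obtain ⟨m1, hm1, e1⟩ := key a1 ha1 i1 hi1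
  obtain ⟨m2, hm2, e2⟩ := key a2 ha2 i2 hi2
  have h4 : ∀ n : ℕ, x ^ n • m - m ∈ R := fun n => e_tel x n m ▸ h2 _
  have h5 : ∀ n : ℕ, Nm x n m - n • m ∈ R := fun n => by
    rw [Nm_apply, ← Finset.card_range n, ← Finset.sum_const, Finset.card_range,
      ← Finset.sum_sub_distrib]
    exact sum_mem fun k _ => h4 k
  have h6 : m1 - m2 - (Nm x i2 m - Nm x i1 m) ∈ R := by
    refine h1 _ fun g hg => ⟨0, ?_⟩
    rw [pow_zero, one_smul]
    refine e_fix e he hH hxP hi ?_ hg
    have t1 := e_tel x i1 m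
    have t2 := e_tel x i2 m
    simp only [smul_sub]
    linear_combination (norm := abel1) e2 - e1 + t1 - t2
  have h7 : ((i2 : ℤ) - i1) • m ∈ R := by
    have := sub_mem (sub_mem (sub_mem (sub_mem hm1 hm2) h6) (h5 i2)) (neg_mem (h5 i1))
    rw [sub_smul, natCast_zsmul, natCast_zsmul]
    convert this using 1
    abel
  have h8 : IsCoprime (p : ℤ) ((i2 : ℤ) - i1) := by
    rw [(Nat.prime_iff_prime_int.1 hp).coprime_iff_not_dvd, ← Nat.modEq_iff_dvd]
    intro hc
    rw [← e_mod (hx m) i1, ← e_mod (hx m) i2, hc] at hne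
    exact hne rfl
  obtain ⟨u, v, huv⟩ := h8
  refine hm ?_
  rw [← one_zsmul m, ← huv, add_smul, mul_smul, mul_smul, natCast_zsmul]
  exact add_mem (zsmul_mem (h3 m) u) (zsmul_mem h7 v)

end Perm

/-- an element that acts as a cycle on all nontrivial orbits -/
theorem e_elt {P X : Type} [Group P] [Finite P] [Fintype X] [MulAction P X] {p : ℕ}
    [hp : Fact p.Prime] (hP : IsPGroup p P) (hX : Fintype.card X < p ^ 2) :
    ∃ x : P, (∀ a : X, x ^ p • a = a) ∧
      ∀ (g : P) (a : X), ∃ i : ℕ, ∀ h : P, g • h • a = x ^ i • h • a := by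
  classical
  have := Fintype.ofFinite P
  have hind : ∀ a : X, MulAction.stabilizer P a ≠ ⊤ → (MulAction.stabilizer P a).index = p := by
    intro a ha
    obtain ⟨n, hn⟩ := hP.index (MulAction.stabilizer P a)
    have h1 : p ^ n < p ^ 2 := by
      rw [← hn, MulAction.index_stabilizer]
      refine lt_of_le_of_lt ?_ hX
      rw [← Nat.card_eq_fintype_card, ← Set.ncard_univ]
      exact Set.ncard_le_ncard (Set.subset_univ _)
    have h2 := (Nat.pow_lt_pow_iff_right hp.out.one_lt).1 h1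
    interval_cases n
    · exact absurd (Subgroup.index_eq_one.1 hn) ha
    · simpa using hn
  have hnor : ∀ a : X, (MulAction.stabilizer P a).Normal := by
    intro a
    by_cases ha : MulAction.stabilizer P a = ⊤
    · rw [ha]
      infer_instance
    · obtain ⟨n, hn⟩ := IsPGroup.iff_card.1 hP
      refine Subgroup.normal_of_index_eq_minFac_card ?_
      rw [hind a ha, hn, hp.out.pow_minFac]
      rintro rfl
      have := (MulAction.stabilizer P a).index_dvd_card
      rw [hind a ha, hn, pow_zero, Nat.dvd_one] at this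
      exact hp.out.one_lt.ne' this
  have hst : ∀ (a : X) (k h : P), k • a = a → k • h • a = h • a := fun a k h hk => by
    have : (h⁻¹ * k * h⁻¹⁻¹) • a = a := (hnor a).conj_mem k hk h⁻¹
    rwa [inv_inv, mul_smul, mul_smul, inv_smul_eq_iff] at this
  obtain ⟨x, hx⟩ : ∃ x : P, ∀ a : X, MulAction.stabilizer P a ≠ ⊤ → x • a ≠ a := by
    by_contra hc
    push Not at hc
    have h1 := Finset.card_mul_le_card_mul (s := (Finset.univ : Finset P))
      (t := Finset.univ.filter fun a : X => MulAction.stabilizer P a ≠ ⊤) (m := p)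
      (n := Fintype.card P / p) (fun g a => g • a = a) (fun g _ => ?_) (fun a ha => ?_)
    · have h2 := Finset.card_le_univ (Finset.univ.filter fun a : X => MulAction.stabilizer P a ≠ ⊤)
      have h3 := Nat.div_mul_le_self (Fintype.card P) p
      have h4 := Fintype.card_pos (α := P)
      rw [Finset.card_univ] at h1
      have h5 : Fintype.card P * (p * p) ≤ Fintype.card X * Fintype.card P := by
        calc Fintype.card P * (p * p) = Fintype.card P * p * p := by ring
          _ ≤ Fintype.card X * (Fintype.card P / p) * p :=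
            Nat.mul_le_mul_right _ (h1.trans (Nat.mul_le_mul_right _ h2))
          _ ≤ _ := by rw [mul_assoc]; exact Nat.mul_le_mul_left _ h3
      nlinarith
    · obtain ⟨a, ha, hga⟩ := hc g
      rw [← hind a ha, MulAction.index_stabilizer, ← Set.ncard_coe_finset]
      refine Set.ncard_le_ncard ?_
      rintro _ ⟨h, rfl⟩
      simp only [Finset.bipartiteAbove, Finset.coe_filter, Finset.mem_filter, Finset.mem_univ,
        true_and, Set.mem_ofPred_eq]
      refine ⟨fun hc => ha (eq_top_iff.2 fun k _ => ?_), hst a g h hga⟩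
      have h1 : k • h • a = h • a := (eq_top_iff.1 hc) (Subgroup.mem_top k)
      simpa using hst _ k h⁻¹ h1
    · have h1 := (MulAction.stabilizer P a).card_mul_index
      rw [hind a (Finset.mem_filter.1 ha).2, Nat.card_eq_fintype_card (α := P)] at h1
      rw [← h1, Nat.mul_div_cancel _ hp.out.pos, Nat.card_eq_fintype_card, Fintype.card_subtype]
      exact Finset.card_le_card fun g hg => by simpa [Finset.bipartiteBelow] using hg
  refine ⟨x, fun a => ?_, fun g a => ?_⟩
  · by_cases ha : MulAction.stabilizer P a = ⊤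
    · exact (eq_top_iff.1 ha) (Subgroup.mem_top _)
    · have := hnor a
      have := (MulAction.stabilizer P a).pow_index_mem x
      rwa [hind a ha] at this
  · by_cases ha : MulAction.stabilizer P a = ⊤
    · exact ⟨0, fun h => by simpa using hst a g h ((eq_top_iff.1 ha) (Subgroup.mem_top _))⟩
    · have := hnor a
      obtain ⟨i, hi⟩ := mem_powers_of_prime_card (G := P ⧸ MulAction.stabilizer P a) (hind a ha)
        (g := (x : P ⧸ MulAction.stabilizer P a)) (g' := (g : P ⧸ MulAction.stabilizer P a))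
        (fun hc => hx a ha ((QuotientGroup.eq_one_iff x).1 hc))
      refine ⟨i, fun h => ?_⟩
      have h1 : (x ^ i)⁻¹ * g ∈ MulAction.stabilizer P a :=
        QuotientGroup.eq.1 (by rw [QuotientGroup.mk_pow]; exact hi)
      have := hst a _ h h1
      rwa [mul_smul, inv_smul_eq_iff] at this

theorem rowE : RowE1 → RowE := by
  intro h1 G X _ _ _ _
  have hex : ∀ p : ℕ, ∃ (P : Subgroup G) (x : G), p.Prime → Fintype.card X < p ^ 2 →
      P.index.Coprime p ∧ x ∈ P ∧ (∀ a : X, x ^ p • a = a) ∧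
        ∀ g ∈ P, ∀ a : X, ∃ i : ℕ, ∀ h ∈ P, g • h • a = x ^ i • h • a := by
    intro p
    by_cases hp : p.Prime ∧ Fintype.card X < p ^ 2
    · have := Fact.mk hp.1
      obtain ⟨P⟩ : Nonempty (Sylow p G) := inferInstance
      obtain ⟨x, hx, hx'⟩ := e_elt (X := X) P.isPGroup' hp.2
      refine ⟨P, x, fun _ _ => ⟨?_, x.2, hx, fun g hg a => ?_⟩⟩
      · exact ((Nat.Prime.coprime_iff_not_dvd hp.1).2 P.not_dvd_index).symm
      · obtain ⟨i, hi⟩ := hx' ⟨g, hg⟩ a
        exact ⟨i, fun h hh => hi ⟨h, hh⟩⟩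
    · exact ⟨⊤, 1, fun a b => absurd ⟨a, b⟩ hp⟩
  choose P x hPx using hex
  obtain ⟨Act, hAct, h2⟩ := h1 G X x
  refine ⟨Act, hAct, fun p hp hpA hX A _ _ hA M hM => ?_⟩
  obtain ⟨hc, hxP, hx, hH⟩ := hPx p hp hX
  have := Fact.mk hp
  have hxv : ∀ v : X →₀ ℤ, x p ^ p • v = v := fun v => Finsupp.ext fun a => by
    rw [Finsupp.comapSMul_apply, inv_smul_eq_iff.2 (hx a).symm]
  have he : ∀ (g : G) (v : X →₀ ℤ) a, Finsupp.coeFnAddHom (g • v) a =
      Finsupp.coeFnAddHom v (g⁻¹ • a) := fun g v a => Finsupp.comapSMul_apply g v a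
  have h3 := h2 p hp hpA hx (P p) hc (fun g hg v => ⟨e_fix _ he hH hxP DFunLike.coe_injective
    (sub_eq_zero.1 (by rw [e_tel, hxv, sub_self])) hg,
    e_nm _ he hH hxP DFunLike.coe_injective hxv v hg⟩) M hM
  let _ : DistribMulAction G M :=
    { smul := fun g m => ⟨g • m.1, hM g trivial _ m.2⟩
      one_smul := fun m => Subtype.ext (one_smul G m.1)
      mul_smul := fun s t m => Subtype.ext (mul_smul s t m.1)
      smul_zero := fun g => Subtype.ext (smul_zero g)
      smul_add := fun g a b => Subtype.ext (smul_add g a.1 b.1) }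
  have hco : ∀ (g : G) (m : M), ((g • m : M) : X →₀ ℤ) = g • (m : X →₀ ℤ) := fun _ _ => rfl
  let e : M →+ (X → ℤ) := Finsupp.coeFnAddHom.comp M.subtype
  have hi : Function.Injective e := DFunLike.coe_injective.comp Subtype.val_injective
  have he' : ∀ (g : G) m a, e (g • m) a = e m (g⁻¹ • a) := fun g m a => he g m a
  have hxM : ∀ m : M, x p ^ p • m = m := fun m => Subtype.ext (hxv m)
  have hker : ∀ m : M, Nm (x p) p m = 0 → ∃ m', m = x p • m' - m' := fun m hm => by
    obtain ⟨m', a, b⟩ := h3 m m.2 (by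
      simpa [Nm_apply, hco] using congrArg Subtype.val hm)
    exact ⟨⟨m', a⟩, Subtype.ext b⟩
  have : Module.Finite ℤ M := Module.Finite.of_injective M.subtype.toIntLinearMap
    Subtype.val_injective
  obtain ⟨t, ht, hk⟩ := e_perm (A := A) (M := M) (P p) (x p)
    (fun m hm => (smul_eq_zero_iff_right hp.ne_zero).1 hm) hxP hxM
    (fun m hm g hg => e_fix e he' hH hxP hi hm hg) hker
    (e_pure e he' hH hxP hp hi hxM hker) hA
  have hk' : Kill A (P p) M (t * 1) := hk.retract (extH (AddMonoidHom.id M)) Subtype.val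
    (extH_addOn _) (fun _ _ _ _ => rfl) (fun _ _ => AddSubgroup.mem_top _) (fun z _ => z.2)
    (fun s _ y hy => by
      rw [extH_apply _ hy, extH_apply _ (hM s trivial y hy)]
      rfl) (fun _ _ _ _ => rfl) fun y hy => by
      rw [extH_apply _ hy, one_smul]
      rfl
  refine ⟨_, ?_, hk'.cores le_top ?_ hM⟩
  · rw [Subgroup.relIndex_top_right, mul_one]
    exact Nat.Coprime.mul_left hc ht
  · rw [Subgroup.relIndex_top_right]
    exact Subgroup.index_ne_zero_of_finite

end Pool.Agent.MP_db5b97_nt.H54
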