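import Pool.Agent.MP_db5b97_nt.H54.SV2

/-! Block sizes with many primes are rare. -/

namespace Pool.Agent.MP_db5b97_nt.H54

open Filter Topology Pool.Agent.MP_db5b97_nt.H31

namespace Rich

lemma exists_pair {y m D p : ℕ} (hy : 0 < y) (hD : m / y ≤ D) (hp : p ∈ PM y m) :
    ∃ u : ℕ × ℕ, (1 ≤ u.1 ∧ u.1 ≤ D ∧ u.2 ≤ 1) ∧ m / u.1 - u.2 = p := by
  obtain ⟨-, -, h1, c, f, h2, h3, h4⟩ := mem_PM.1 hp
  have h5 : c ≤ D := by
    refine le_trans ((Nat.le_div_iff_mul_le hy).2 ?_) hD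
    have := Nat.mul_le_mul_left c h1
    omega
  rcases h3.lt_or_eq with h6 | h6
  · refine ⟨(c, 0), ⟨h2, h5, zero_le_one⟩, ?_⟩
    simp only [h4, Nat.mul_add_div h2, Nat.div_eq_of_lt h6]
    rfl
  · refine ⟨(c, 1), ⟨h2, h5, le_rfl⟩, ?_⟩
    simp only [h4, h6, Nat.mul_add_div h2, Nat.div_self h2]
    rfl

lemma tuples (k D y : ℕ) (S : Finset ℕ) (W B : ℝ) (hy : 0 < y) (hW : 0 ≤ W)
    (hS : ∀ m ∈ S, m / y ≤ D)
    (hB : ∀ c δ : Fin k → ℕ, (∀ i, 1 ≤ c i ∧ c i ≤ D ∧ δ i ≤ 1) → ∀ T ⊆ S,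
      (∀ m ∈ T, (∀ i, (m / c i - δ i).Prime ∧ y ≤ m / c i - δ i) ∧
        Function.Injective fun i => m / c i - δ i) → (T.card : ℝ) * W ≤ B) :
    (∑ m ∈ S, (((PM y m).card.descFactorial k : ℕ) : ℝ)) * W ≤ (2 * D) ^ k * B := by
  classical
  set U : Finset (Fin k → ℕ × ℕ) :=
    Fintype.piFinset fun _ => Finset.Icc 1 D ×ˢ Finset.range 2 with hU
  have hUc : (U.card : ℝ) = (2 * D) ^ k := by
    simp [hU, Fintype.card_piFinset, mul_comm]
  have hUm : ∀ u, u ∈ U ↔ ∀ i, 1 ≤ (u i).1 ∧ (u i).1 ≤ D ∧ (u i).2 ≤ 1 := by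
    intro u
    simp only [hU, Fintype.mem_piFinset, Finset.mem_product, Finset.mem_Icc, Finset.mem_range,
      and_assoc, Nat.lt_succ_iff]
  set good : ℕ → (Fin k → ℕ × ℕ) → Prop := fun m u =>
    (∀ i, (m / (u i).1 - (u i).2).Prime ∧ y ≤ m / (u i).1 - (u i).2) ∧
      Function.Injective fun i => m / (u i).1 - (u i).2 with hgood
  have s1 : ∀ m ∈ S, (PM y m).card.descFactorial k ≤ (U.filter fun u => good m u).card := by
    intro m hm
    choose g hg1 hg2 using fun p : PM y m => exists_pair hy (hS m hm) p.2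
    have e : (Finset.univ : Finset (Fin k ↪ PM y m)).card = (PM y m).card.descFactorial k := by
      rw [Finset.card_univ, Fintype.card_embedding_eq, Fintype.card_coe, Fintype.card_fin]
    rw [← e]
    refine Finset.card_le_card_of_injOn (fun e i => g (e i)) (fun e _ => ?_) ?_
    · rw [Finset.mem_coe, Finset.mem_filter, hUm]
      refine ⟨fun i => hg1 _, fun i => ?_, fun i j hij => ?_⟩
      · simp only [hg2]
        exact ⟨(mem_PM.1 (e i).2).2.1, (mem_PM.1 (e i).2).2.2.1⟩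
      · simp only [hg2] at hij
        exact e.injective (Subtype.ext hij)
    · intro e _ e' _ h
      ext i
      rw [← hg2, ← hg2, show g (e i) = g (e' i) from congrFun h i]
  have s2 : ∑ m ∈ S, (U.filter fun u => good m u).card =
      ∑ u ∈ U, (S.filter fun m => good m u).card := by
    simp only [Finset.card_filter]
    exact Finset.sum_comm
  have s3 : (∑ m ∈ S, (((PM y m).card.descFactorial k : ℕ) : ℝ)) ≤
      ∑ u ∈ U, ((S.filter fun m => good m u).card : ℝ) := by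
    exact_mod_cast s2 ▸ Finset.sum_le_sum s1
  refine (mul_le_mul_of_nonneg_right s3 hW).trans ?_
  rw [Finset.sum_mul, ← hUc, ← nsmul_eq_mul]
  refine Finset.sum_le_card_nsmul _ _ _ fun u hu => ?_
  exact hB (fun i => (u i).1) (fun i => (u i).2) ((hUm u).1 hu) _ (Finset.filter_subset _ _)
    fun m hm => (Finset.mem_filter.1 hm).2

lemma sv3 (h : RowSV2) (k a : ℕ) (hk : 1 ≤ k) : ∀ᶠ y : ℕ in atTop, ∀ D : ℕ,
    (D : ℝ) ≤ Real.log y ^ a → ∀ S : Finset ℕ, (∀ m ∈ S, m / y ≤ D) →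
      (∑ m ∈ S, (((PM y m).card.descFactorial k : ℕ) : ℝ)) * Real.log y ^ k ≤
        (2 * D) ^ k * ((D + 1) * y * Real.log y ^ (3 / 4 : ℝ)) := by
  obtain ⟨X0, hX0⟩ := eventually_atTop.1 (h k a hk)
  filter_upwards [eventually_ge_atTop X0, ev_logpow a, ev_log 1, eventually_ge_atTop 3]
    with y h1 h2 h3 h4 D hD S hS
  have hy : 0 < y := by omega
  refine tuples k D y S _ _ hy (by positivity) hS fun c δ hc T hTS hT => ?_
  obtain ⟨X, hX⟩ : ∃ X, X = (D + 1) * y := ⟨_, rfl⟩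
  have hyX : y ≤ X := hX ▸ Nat.le_mul_of_pos_left _ D.succ_pos
  have hDy : D + 1 < y := by
    have : (2 * D : ℝ) ≤ y := by linarith
    have : 2 * D ≤ y := by exact_mod_cast this
    omega
  have hXy : X < y ^ 2 := by
    rw [hX, pow_two]
    exact Nat.mul_lt_mul_of_pos_right hDy hy
  have hl : Real.log y ≤ Real.log X :=
    Real.log_le_log (by exact_mod_cast hy) (by exact_mod_cast hyX)
  have h5 : (T.card : ℝ) * Real.log X ^ k ≤ X * Real.log X ^ (3 / 4 : ℝ) := by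
    refine le_trans ?_ (hX0 X (h1.trans hyX) c δ fun i => ⟨(hc i).1, ?_, (hc i).2.2⟩)
    · refine mul_le_mul_of_nonneg_right (Nat.cast_le.2 (Finset.card_le_card fun m hm => ?_))
        (by positivity)
      rw [Finset.mem_filter, Finset.mem_range]
      refine ⟨?_, fun i => ⟨((hT m hm).1 i).1, hXy.trans_le ?_⟩, (hT m hm).2⟩
      · rw [hX, ← Nat.div_lt_iff_lt_mul hy]
        exact Nat.lt_succ_of_le (hS m (hTS hm))
      · exact Nat.pow_le_pow_left ((hT m hm).1 i).2 2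
    · refine le_trans (by exact_mod_cast (hc i).2.1) (hD.trans ?_)
      gcongr
  set L := Real.log y
  set t := Real.log X
  have ht : 0 < t := by linarith
  have hL : 0 < L := by linarith
  have h6 : t ^ (3 / 4 - k : ℝ) ≤ L ^ (3 / 4 - k : ℝ) := by
    have : (1 : ℝ) ≤ k := by exact_mod_cast hk
    exact Real.rpow_le_rpow_of_nonpos hL hl (by linarith)
  rw [Real.rpow_sub ht, Real.rpow_sub hL, Real.rpow_natCast, Real.rpow_natCast] at h6
  rw [← le_div_iff₀ (by positivity), mul_div_assoc] at h5 ⊢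
  refine h5.trans ?_
  rw [hX]
  push_cast
  gcongr

lemma desc_ge {n k : ℕ} {s : ℝ} (hs : 0 ≤ s) (h1 : s ≤ n) (h2 : 2 * (k + 1) ≤ n) :
    (n : ℝ) / 2 * (s / 2) ^ k ≤ (n.descFactorial (k + 1) : ℕ) := by
  have h3 : ((n + 1 - (k + 1) : ℕ) : ℝ) ^ (k + 1) ≤ (n.descFactorial (k + 1) : ℕ) := by
    exact_mod_cast Nat.pow_sub_le_descFactorial n (k + 1)
  have h4 : (n : ℝ) / 2 ≤ ((n + 1 - (k + 1) : ℕ) : ℝ) := by
    have : n ≤ 2 * (n + 1 - (k + 1)) := by omega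
    have : (n : ℝ) ≤ 2 * ((n + 1 - (k + 1) : ℕ) : ℝ) := by exact_mod_cast this
    linarith
  refine le_trans ?_ h3
  rw [pow_succ']
  gcongr
  linarith

end Rich

open Rich

theorem rowRICH : RowSV2 → RowRICH := by
  intro h τ ε a hτ hε
  obtain ⟨k, hk⟩ : ∃ k, k = 3 * a + 1 := ⟨_, rfl⟩
  obtain ⟨D0, hD0⟩ : ∃ D0 : ℕ, 2 * (k + 1) / τ ≤ D0 := exists_nat_ge _
  obtain ⟨C1, hC1⟩ : ∃ C1 : ℝ, C1 = (2 * D0) ^ 2 * (D0 + 1) := ⟨_, rfl⟩
  obtain ⟨C2, hC2⟩ : ∃ C2 : ℝ, C2 = 8 * (4 / τ) ^ k := ⟨_, rfl⟩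
  filter_upwards [sv3 h 2 1 one_le_two, sv3 h (k + 1) a (by omega), ev_log D0, ev_log 1,
    ev_quarter ((C1 + C2) / ε), eventually_ge_atTop 1] with y h1 h2 h3 h4 h5 h6 S hS
  set L := Real.log y with hL
  have hL0 : 0 < L := by linarith
  have hy : (0 : ℝ) < y := by exact_mod_cast h6
  set R := L ^ (3 / 4 : ℝ) with hR
  have hR0 : 0 < R := by positivity
  have p1 : (∑ m ∈ S.filter (fun m => m / y ≤ D0), ((PM y m).card : ℝ)) * L ^ 2 ≤
      C1 * (y * R) := by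
    refine le_trans ?_ ((h1 D0 (by simpa using h3) (S.filter fun m => m / y ≤ D0)
      fun m hm => (Finset.mem_filter.1 hm).2).trans_eq (by rw [hC1]; ring))
    refine mul_le_mul_of_nonneg_right (Finset.sum_le_sum fun m hm => Nat.cast_le.2 ?_)
      (by positivity)
    have := (hS m (Finset.mem_filter.1 hm).1).2.1
    simp only [Nat.descFactorial_succ, Nat.descFactorial_zero, mul_one, Nat.sub_zero]
    exact Nat.le_mul_of_pos_left _ (by omega)
  set S2 := S.filter (fun m => ¬ m / y ≤ D0) with hS2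
  have hdiv : ∀ m ∈ S, ((m / y : ℕ) : ℝ) ≤ L ^ a := fun m hm =>
    Nat.cast_div_le.trans ((div_le_iff₀' hy).2 (hS m hm).1)
  have p2 : ∀ D ∈ Finset.Icc 1 ⌊L ^ a⌋₊,
      (∑ m ∈ S2.filter (fun m => m / y = D), ((PM y m).card : ℝ)) * L ^ (k + 1) ≤
        C2 * (L ^ a) ^ 2 * (y * R) := by
    intro D hD
    rw [Finset.mem_Icc] at hD
    have hD1 : (1 : ℝ) ≤ D := by exact_mod_cast hD.1
    have hD2 : (D : ℝ) ≤ L ^ a := (Nat.le_floor_iff (by positivity)).1 hD.2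
    have q1 := h2 D hD2 (S2.filter fun m => m / y = D) fun m hm => (Finset.mem_filter.1 hm).2.le
    have q2 : (∑ m ∈ S2.filter (fun m => m / y = D), ((PM y m).card : ℝ)) / 2 *
        (τ * D / 2) ^ k ≤ ∑ m ∈ S2.filter (fun m => m / y = D),
          (((PM y m).card.descFactorial (k + 1) : ℕ) : ℝ) := by
      rw [Finset.sum_div, Finset.sum_mul]
      refine Finset.sum_le_sum fun m hm => ?_
      obtain ⟨hm1, hm2⟩ := Finset.mem_filter.1 hm
      obtain ⟨hm3, hm4⟩ := Finset.mem_filter.1 hm1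
      have q3 := (hS m hm3).2.2
      rw [hm2] at q3 hm4
      refine desc_ge (by positivity) q3 ?_
      have q4 : (D0 : ℝ) ≤ D := by exact_mod_cast (not_le.1 hm4).le
      have q5 : (2 * (k + 1) : ℝ) ≤ (PM y m).card :=
        le_trans ((div_le_iff₀' hτ).1 (hD0.trans q4)) q3
      exact_mod_cast q5
    set A := ∑ m ∈ S2.filter (fun m => m / y = D), ((PM y m).card : ℝ)
    have q6 : A / 2 * (τ * D / 2) ^ k * L ^ (k + 1) ≤ (2 * D) ^ (k + 1) * ((D + 1) * y * R) :=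
      le_trans (by gcongr) q1
    have q7 : (2 * D : ℝ) ^ k = (4 / τ) ^ k * (τ * D / 2) ^ k := by
      rw [← mul_pow]; congr 1; field_simp; norm_num
    have q8 : A * L ^ (k + 1) ≤ (4 / τ) ^ k * (4 * D * (D + 1)) * (y * R) := by
      refine le_of_mul_le_mul_right ?_ (show 0 < (τ * D / 2) ^ k by positivity)
      rw [pow_succ (2 * D : ℝ), q7] at q6
      linarith
    refine q8.trans ?_
    have q9 : (4 * D * (D + 1) : ℝ) ≤ 8 * (L ^ a) ^ 2 := by nlinarith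
    calc _ ≤ (4 / τ) ^ k * (8 * (L ^ a) ^ 2) * (y * R) := by gcongr
      _ = _ := by rw [hC2]; ring
  have hC20 : 0 ≤ C2 := by rw [hC2]; positivity
  have p3 : (∑ m ∈ S2, ((PM y m).card : ℝ)) * L ^ 2 ≤ C2 * (y * R) := by
    refine le_of_mul_le_mul_right ?_ (show 0 < (L ^ a) ^ 3 by positivity)
    have e : L ^ 2 * (L ^ a) ^ 3 = L ^ (k + 1) := by rw [hk]; ring
    rw [mul_assoc, e, ← Finset.sum_fiberwise_of_maps_to (t := Finset.Icc 1 ⌊L ^ a⌋₊)
      (g := fun m => m / y) fun m hm => ?_, Finset.sum_mul]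
    · refine (Finset.sum_le_card_nsmul _ _ _ p2).trans ?_
      rw [Nat.card_Icc, Nat.add_sub_cancel, nsmul_eq_mul]
      calc _ ≤ L ^ a * (C2 * (L ^ a) ^ 2 * (y * R)) := by
            gcongr
            exact Nat.floor_le (by positivity)
        _ = _ := by ring
    · obtain ⟨hm3, hm4⟩ := Finset.mem_filter.1 hm
      exact Finset.mem_Icc.2 ⟨by omega, Nat.le_floor (hdiv m hm3)⟩
  have e : R * L ^ (1 / 4 : ℝ) = L := by
    rw [hR, ← Real.rpow_add hL0]
    norm_num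
  rw [← Finset.sum_filter_add_sum_filter_not S (fun m => m / y ≤ D0)]
  refine le_of_mul_le_mul_right ?_ hL0
  rw [div_le_iff₀ hε] at h5
  calc _ = (∑ m ∈ S.filter (fun m => m / y ≤ D0), ((PM y m).card : ℝ)) * L ^ 2 +
        (∑ m ∈ S2, ((PM y m).card : ℝ)) * L ^ 2 := by ring
    _ ≤ (C1 + C2) * (y * R) := by linarith
    _ ≤ L ^ (1 / 4 : ℝ) * ε * (y * R) := by gcongr
    _ = ε * y * (R * L ^ (1 / 4 : ℝ)) := by ring
    _ = _ := by rw [e]

end Pool.Agent.MP_db5b97_nt.H54
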