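import Pool.Agent.MP_db5b97_nt.H31.SpecT
import Pool.Agent.MP_db5b97_nt.H21.NT2

/-! Principal units: rays, inclusions, Galois action and weak approximation. -/

namespace Pool.Agent.MP_db5b97_nt.H54

open H85 H31 NumberField IsDedekindDomain WithZero

namespace PU

variable {F : Type} [Field F] [NumberField F]

theorem val_one {w : Sp F} {x : F} (hx : w.valuation F (x - 1) < 1) : w.valuation F x = 1 := by
  simpa using Valuation.map_one_add_of_lt _ hx

theorem pow_sub (w : Sp F) {y : F} (hy : w.valuation F y ≤ 1) (i : ℕ) :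
    w.valuation F (y ^ i - 1) ≤ w.valuation F (y - 1) := by
  rw [← mul_geom_sum, map_mul]
  exact mul_le_of_le_one_right' (Valuation.map_sum_le _ fun j _ => by
    rw [map_pow]; exact pow_le_one' hy j)

theorem step (w : Sp F) (q : ℕ) {x : F} (hx : w.valuation F (x - 1) < 1) (n : ℕ) :
    w.valuation F (x ^ q ^ n - 1) ≤ max (w.valuation F (x - 1)) (w.valuation F (q : F)) ^ n := by
  have h1 := (val_one hx).le
  induction n with
  | zero => simpa using hx.le
  | succ n ih =>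
    rw [pow_succ, pow_mul, ← mul_geom_sum, map_mul, pow_succ]
    refine mul_le_mul' ih ?_
    have e : ∑ i ∈ Finset.range q, (x ^ q ^ n) ^ i =
        ∑ i ∈ Finset.range q, (x ^ (q ^ n * i) - 1) + (q : F) := by
      simp [Finset.sum_sub_distrib, pow_mul]
    rw [e]
    exact Valuation.map_add_le _ (Valuation.map_sum_le _ fun i _ =>
      (pow_sub w h1 _).trans (le_max_left _ _)) (le_max_right _ _)

theorem ray (q M : ℕ) (hq : q ≠ 0) (x : Un F) (hx : x ∈ U1 F q) :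
    ∃ t : ℕ, q ^ t • x ∈ Ray F q M := by
  have := Pl_finite (F := F) hq
  have hc : ∀ w : Pl F q, max (w.1.valuation F (x.val - 1)) (w.1.valuation F (q : F)) < 1 :=
    fun w => max_lt (mem_U1.1 hx w) (val_nat_lt_one w.2)
  have h : ∀ w : Pl F q, ∃ b : ℕ, max (w.1.valuation F (x.val - 1)) (w.1.valuation F (q : F)) ^ b ≤
      w.1.valuation F (q : F) ^ M := fun w =>
    (exists_pow_lt₀ (hc w) (Units.mk0 _ (pow_ne_zero _ (by simpa using hq)))).imp fun _ h => h.le
  choose b hb using h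
  obtain ⟨B, hB⟩ := (Set.finite_range b).bddAbove
  refine ⟨B, fun w hw => val_one (mem_U1.1 (nsmul_mem hx _) ⟨w, hw⟩), fun w hw => ?_⟩
  rw [Un.val_nsmul]
  exact (step w q (mem_U1.1 hx ⟨w, hw⟩) B).trans ((pow_le_pow_of_le_one zero_le (hc ⟨w, hw⟩).le
    (hB ⟨⟨w, hw⟩, rfl⟩)).trans (hb ⟨w, hw⟩))

theorem inc (k : Type) [Field k] [NumberField k] [Algebra k F] (W : Sp F) (x : Un k) :
    Un.inc k F x ∈ U1w W ↔ x ∈ U1w (und k W) := by
  rw [mem_U1w, mem_U1w, Un.val_inc, ← map_one (algebraMap k F), ← map_sub, NT2.val_inc,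
    pow_lt_one_iff_of_nonneg zero_le (NT2.ram_ne k W)]

theorem und_surj (k : Type) [Field k] [NumberField k] [Algebra k F] {q : ℕ} (v : Pl k q) :
    ∃ w : Pl F q, w.und k = v := by
  obtain ⟨w, hw⟩ := NT2.und_surj k F v.1
  exact ⟨⟨w, (NT2.nat_mem k q w).1 (hw ▸ v.2)⟩, Subtype.ext hw⟩

theorem inc' (k : Type) [Field k] [NumberField k] [Algebra k F] (q : ℕ) (x : Un k) :
    Un.inc k F x ∈ U1 F q ↔ x ∈ U1 k q := by
  rw [mem_U1, mem_U1]
  refine ⟨fun h v => ?_, fun h w => (inc k w.1 x).2 (h (w.und k))⟩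
  obtain ⟨w, rfl⟩ := und_surj (F := F) k v
  exact (inc k w.1 x).1 (h w)

theorem sub_mem {w : Sp F} {a b : 𝓞 F} (ha : a ≠ 0) (hb : b ≠ 0)
    (h : w.valuation F ((a - b : 𝓞 F) : F) < w.valuation F (b : F)) :
    mkI a ha - mkI b hb ∈ U1w w := by
  have hb' : (b : F) ≠ 0 := by simpa using hb
  have e : (a : F) / b - 1 = ((a - b : 𝓞 F) : F) / b := by
    push_cast
    field_simp
  rwa [mem_U1w, Un.val_sub, val_mkI, val_mkI, e, map_div₀,
    div_lt_one₀ (by simpa [zero_lt_iff] using hb)]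

theorem waI {q : ℕ} (hq : q ≠ 0) (a : Pl F q → 𝓞 F) (ha : ∀ w, a w ≠ 0) :
    ∃ y : Un F, ∀ w : Pl F q, y - mkI (a w) (ha w) ∈ U1w w.1 := by
  have := Pl_finite (F := F) hq
  have := Fintype.ofFinite (Pl F q)
  obtain ⟨A, hA⟩ := IsDedekindDomain.exists_forall_sub_mem_ideal (s := Finset.univ)
    (fun w : Pl F q => w.1.asIdeal) (fun w => (ord w.1 (mkI (a w) (ha w))).toNat + 1)
    (fun w _ => w.1.prime)
    (fun w _ w' _ h h' => h (Subtype.ext (HeightOneSpectrum.ext h'))) fun w => a w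
  have h : ∀ w : Pl F q, w.1.valuation F ((A - a w : 𝓞 F) : F) < w.1.valuation F (a w : F) := by
    intro w
    rw [val_coe, ← val_mkI _ (ha w), val_eq_exp]
    refine ((w.1.intValuation_le_pow_iff_mem _ _).2 (hA w (Finset.mem_univ w))).trans_lt ?_
    rw [exp_lt_exp]
    omega
  by_cases h0 : A = 0
  · exact ⟨0, fun w => absurd (h w) (by simp [h0])⟩
  · exact ⟨mkI A h0, fun w => sub_mem _ _ (h w)⟩

theorem wa {q : ℕ} (hq : q ≠ 0) (f : Pl F q → Un F) :
    ∃ y : Un F, ∀ w : Pl F q, y - f w ∈ U1w w.1 := by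
  choose a ha b hb e using fun w => exists_mkI (f w)
  obtain ⟨y, hy⟩ := waI hq a ha
  obtain ⟨z, hz⟩ := waI hq b hb
  refine ⟨y - z, fun w => ?_⟩
  rw [e, sub_sub_sub_comm]
  exact (U1w w.1).sub_mem (hy w) (hz w)

variable {G : Type} [Group G] [MulSemiringAction G F]

theorem val_smul (s : G) (w : Sp F) (x : F) : (s • w).valuation F (s • x) = w.valuation F x := by
  by_cases h : x = 0
  · simp [h]
  · exact (val_eq_exp (s • w) (s • Un.mk x h)).trans
      ((congrArg (fun n => exp (-n)) (NT2.ord_smul F G s w _)).trans (val_eq_exp w _).symm)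

theorem smul (s : G) (w : Sp F) (x : Un F) : s • x ∈ U1w (s • w) ↔ x ∈ U1w w := by
  rw [mem_U1w, mem_U1w, Un.val_smul, ← val_smul s w, smul_sub, smul_one]

theorem smul' (s : G) (q : ℕ) (x : Un F) (hx : x ∈ U1 F q) : s • x ∈ U1 F q :=
  mem_U1.2 fun w => by
    have := (smul s (s⁻¹ • w).1 x).2 (mem_U1.1 hx _)
    rwa [show s • (s⁻¹ • w).1 = w.1 from smul_inv_smul s w.1] at this

variable (G) in
theorem trans (K : Type) [Field K] [NumberField K] [Algebra K F] [IsGaloisGroup G K F]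
    (w w' : Sp F) (h : und K w = und K w') : ∃ s : G, s • w = w' := by
  have := IsGaloisGroup.finite G K F
  have h1 := w.isPrime
  have h2 := w'.isPrime
  obtain ⟨s, hs⟩ := Algebra.IsInvariant.exists_smul_of_under_eq (𝓞 K) (𝓞 F) G w.asIdeal w'.asIdeal
    (congrArg HeightOneSpectrum.asIdeal h)
  exact ⟨s, HeightOneSpectrum.ext hs.symm⟩

theorem waFix [Finite G] [FaithfulSMul G F] (σ : G) {q : ℕ} (hq : q ≠ 0)
    (hσ : ∀ w : Pl F q, σ • w = w) (f : Pl F q → Un F) (hf : ∀ w, σ • f w = f w) :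
    ∃ y : Un F, σ • y = y ∧ ∀ w : Pl F q, y - f w ∈ U1w w.1 := by
  obtain ⟨K, _, _, _, _⟩ : ∃ (K : Type) (_ : Field K) (_ : NumberField K) (_ : Algebra K F),
      IsGaloisGroup (Subgroup.zpowers σ) K F :=
    ⟨FixedPoints.subfield (Subgroup.zpowers σ) F, inferInstance, inferInstance, inferInstance,
      inferInstance⟩
  choose g hg using fun w => (NT2.inc_range K F (Subgroup.zpowers σ) (f w)).2 fun s =>
    (Subgroup.zpowers_le (H := MulAction.stabilizer G (f w))).2 (hf w) s.2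
  choose t ht using fun v : Pl K q => und_surj (F := F) K v
  obtain ⟨y, hy⟩ := wa hq fun v => g (t v)
  refine ⟨Un.inc K F y, (NT2.inc_range K F (Subgroup.zpowers σ) _).1 ⟨y, rfl⟩
    ⟨σ, Subgroup.mem_zpowers σ⟩, fun w => ?_⟩
  have e : t (w.und K) = w := by
    obtain ⟨s, hs⟩ := trans (Subgroup.zpowers σ) K (t (w.und K)).1 w.1
      (congrArg Subtype.val (ht (w.und K)))
    rw [← (Subgroup.zpowers_le (H := MulAction.stabilizer G (t (w.und K)))).2 (hσ _) s.2]
    exact Subtype.ext hs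
  rw [← hg w, ← map_sub, inc]
  have := hy (w.und K)
  rwa [e] at this

theorem triv (s : G) (w : Sp F) (h : ∀ x : 𝓞 F, s • x - x ∈ w.asIdeal) :
    s • w = w ∧ ∀ u : Un F, H85.ord w u = 0 → s • u - u ∈ U1w w := by
  have key : ∀ (a : 𝓞 F) (ha : a ≠ 0), a ∉ w.asIdeal → s • mkI a ha - mkI a ha ∈ U1w w := by
    intro a ha hw
    refine sub_mem (a := s • a) (by simpa [smul_eq_zero_iff_eq] using ha) ha ?_
    rw [(val_eq_one_iff w a).2 hw, val_lt_one_iff]
    exact h a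
  refine ⟨HeightOneSpectrum.ext (Ideal.ext fun x => ?_), fun u hu => ?_⟩
  · have := h (s⁻¹ • x)
    rw [smul_inv_smul] at this
    rw [mem_smul_iff]
    exact ⟨fun hx => by simpa using w.asIdeal.add_mem this hx,
      fun hx => by simpa using w.asIdeal.sub_mem hx this⟩
  · rw [ord_eq_zero_iff] at hu
    obtain ⟨n, d, e⟩ := w.exists_primeCompl_mul_eq_of_integer u.val hu.le
    have hd : (d : 𝓞 F) ∉ w.asIdeal := d.2
    have e' : u.val * ((d : 𝓞 F) : F) = n := e
    have hn : n ∉ w.asIdeal := by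
      rw [← val_eq_one_iff, ← e', map_mul, hu, (val_eq_one_iff w _).2 hd, mul_one]
    have n0 : n ≠ 0 := fun h0 => hn (h0 ▸ zero_mem _)
    have d0 : (d : 𝓞 F) ≠ 0 := fun h0 => hd (h0 ▸ zero_mem _)
    have eu : u = mkI n n0 - mkI d d0 := Un.ext (by
      rw [Un.val_sub, val_mkI, val_mkI, eq_div_iff (by simpa using d0), e'])
    rw [eu, smul_sub, sub_sub_sub_comm]
    exact (U1w w).sub_mem (key _ _ hn) (key _ _ hd)

end PU

theorem rowU1 : RowU1 where
  ray _ _ _ q M hq := PU.ray q M hq.ne_zero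
  le _ _ _ _ _ hM _ hx := mem_U1.2 fun w => (hx.2 w.1 w.2).trans_lt
    (pow_lt_one₀ zero_le (val_nat_lt_one w.2) (by omega))
  ord _ _ _ w x hx := (ord_eq_zero_iff w x).2 (PU.val_one hx)
  inc k _ _ _ _ _ _ := PU.inc k
  inc' k _ _ _ _ _ _ := PU.inc' k
  smul _ _ _ _ _ _ := PU.smul
  smul' _ _ _ _ _ _ := PU.smul'
  wa _ _ _ _ hq := PU.wa hq
  waFix _ _ _ _ _ _ _ _ σ _ hq := PU.waFix σ hq
  triv _ _ _ _ _ _ := PU.triv

end Pool.Agent.MP_db5b97_nt.H54
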