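import Pool.Agent.MP_db5b97_nt.H31.SpecN

/-! Simultaneous prime values of integer parts, from the bound for linear forms. -/

namespace Pool.Agent.MP_db5b97_nt.H54

open Filter Topology Pool.Agent.MP_db5b97_nt.H31

namespace Rich

lemma ev_logpow (n : ℕ) : ∀ᶠ X : ℕ in atTop, 2 * Real.log X ^ n ≤ X := by
  have h := (Real.isLittleO_pow_log_id_atTop (n := n)).bound (c := 1 / 2) (by norm_num)
  filter_upwards [tendsto_natCast_atTop_atTop.eventually h] with X hX
  simp only [id, Real.norm_eq_abs, Nat.abs_cast] at hX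
  linarith [le_abs_self (Real.log X ^ n)]

lemma ev_log (C : ℝ) : ∀ᶠ X : ℕ in atTop, C ≤ Real.log X :=
  (Real.tendsto_log_atTop.comp tendsto_natCast_atTop_atTop).eventually_ge_atTop C

lemma ev_quarter (C : ℝ) : ∀ᶠ X : ℕ in atTop, C ≤ Real.log X ^ (1 / 4 : ℝ) :=
  ((tendsto_rpow_atTop (by norm_num : (0 : ℝ) < 1 / 4)).comp
    (Real.tendsto_log_atTop.comp tendsto_natCast_atTop_atTop)).eventually_ge_atTop C

lemma form_eq {Q c δ m : ℕ} (hc : 1 ≤ c) (hd : c ∣ Q) (hp : (m / c - δ).Prime) :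
    ((m / c - δ : ℕ) : ℤ) = (Q / c : ℕ) * ((m / Q : ℕ) : ℤ) + (((m % Q / c : ℕ) : ℤ) - δ) := by
  obtain ⟨e, rfl⟩ := hd
  have h1 : m / c = e * (m / (c * e)) + m % (c * e) / c := by
    conv_lhs => rw [← Nat.div_add_mod m (c * e), mul_assoc, Nat.mul_add_div hc]
  have h2 : δ ≤ m / c := by
    have := hp.pos
    omega
  rw [Nat.cast_sub h2, Nat.mul_div_cancel_left _ hc, h1, Nat.cast_add, Nat.cast_mul]
  ring

end Rich

open Rich

theorem rowSV2 : RowSV → RowSV2 := by
  classical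
  intro h k a hk
  obtain ⟨X0, hX0⟩ := eventually_atTop.1 (h k (2 * (a * k)) hk)
  filter_upwards [eventually_ge_atTop (X0 ^ 2), ev_logpow (2 * (a * k)),
    ev_quarter (2 ^ (k + 1)), ev_log 4, eventually_ge_atTop 1] with X h1 h2 h3 h4 h5 c δ hc
  suffices H : ∀ T : Finset ℕ, (∀ m ∈ T, m < X ∧ (∀ i, (m / c i - δ i).Prime ∧
      X < (m / c i - δ i) ^ 2) ∧ Function.Injective fun i => m / c i - δ i) →
      (T.card : ℝ) * Real.log X ^ k ≤ X * Real.log X ^ (3 / 4 : ℝ) from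
    H _ fun m hm => by
      rw [Finset.mem_filter, Finset.mem_range] at hm
      exact hm
  intro T hT
  set L := Real.log X with hL
  obtain ⟨Q, hQ⟩ : ∃ Q, Q = ∏ i, c i := ⟨_, rfl⟩
  have hQ1 : 0 < Q := hQ ▸ Finset.prod_pos fun i _ => (hc i).1
  have hd : ∀ i, c i ∣ Q := fun i => hQ ▸ Finset.dvd_prod_of_mem _ (Finset.mem_univ i)
  have hQL : (Q : ℝ) ≤ L ^ (a * k) := by
    rw [hQ, Nat.cast_prod]
    refine (Finset.prod_le_prod (fun i _ => by positivity) fun i _ => (hc i).2.1).trans ?_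
    simp [pow_mul]
  have hQ2 : Q ^ 2 ≤ X := by
    have : (Q : ℝ) ^ 2 ≤ X := by
      have e : L ^ (2 * (a * k)) = (L ^ (a * k)) ^ 2 := by rw [mul_comm, pow_mul]
      have : (Q : ℝ) ^ 2 ≤ (L ^ (a * k)) ^ 2 := by gcongr
      nlinarith [sq_nonneg (Q : ℝ)]
    exact_mod_cast this
  obtain ⟨Y, hY⟩ : ∃ Y, Y = (X + Q - 1) / Q := ⟨_, rfl⟩
  have hdm := Nat.div_add_mod (X + Q - 1) Q
  have hml := Nat.mod_lt (X + Q - 1) hQ1
  rw [← hY] at hdm
  have hQX : Q ≤ X := le_trans (Nat.le_self_pow two_ne_zero Q) hQ2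
  have hY1 : X ≤ Q * Y := by omega
  have hY2 : Q * Y ≤ 2 * X := by omega
  have hY3 : Y ≤ X := by
    rw [hY, Nat.div_le_iff_le_mul_add_pred hQ1]
    have : X ≤ Q * X := Nat.le_mul_of_pos_left _ hQ1
    omega
  have hY4 : X ≤ Y ^ 2 := by
    refine Nat.le_of_mul_le_mul_left (a := X) ?_ h5
    calc X * X ≤ (Q * Y) * (Q * Y) := Nat.mul_le_mul hY1 hY1
      _ = Q ^ 2 * Y ^ 2 := by ring
      _ ≤ _ := Nat.mul_le_mul_right _ hQ2
  have hY5 : X0 ≤ Y := (Nat.pow_le_pow_iff_left two_ne_zero).1 (h1.trans hY4)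
  have hY0 : 0 < Y := Nat.pos_of_ne_zero fun e => by rw [e] at hY4; omega
  set M := Real.log Y with hM
  have hLM : L ≤ 2 * M := by
    rw [hL, hM, show 2 * Real.log Y = Real.log ((Y : ℝ) ^ 2) by simp]
    exact Real.log_le_log (by exact_mod_cast h5) (by exact_mod_cast hY4)
  have hML : M ≤ L := Real.log_le_log (by exact_mod_cast hY0) (by exact_mod_cast hY3)
  have hM2 : 2 ≤ M := by linarith
  have hQM : (Q : ℝ) ≤ M ^ (2 * (a * k)) := by
    rw [pow_mul]
    refine hQL.trans (pow_le_pow_left₀ (by linarith) (by nlinarith) _)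
  have cls : ∀ r ∈ Finset.range Q,
      ((T.filter fun m => m % Q = r).card : ℝ) * M ^ k ≤ Y * √M := by
    intro r hr
    rw [Finset.mem_range] at hr
    set α : Fin k → ℕ := fun i => Q / c i with hα
    set b : Fin k → ℤ := fun i => ((r / c i : ℕ) : ℤ) - δ i with hb
    have hα1 : ∀ i, 1 ≤ α i := fun i => Nat.div_pos (Nat.le_of_dvd hQ1 (hd i)) (hc i).1
    have hα2 : ∀ i, α i ≤ Q := fun i => Nat.div_le_self _ _
    have hf : ∀ m ∈ T.filter (fun m => m % Q = r), ∀ i,
        ((m / c i - δ i : ℕ) : ℤ) = α i * ((m / Q : ℕ) : ℤ) + b i := by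
      intro m hm i
      rw [Finset.mem_filter] at hm
      rw [form_eq (hc i).1 (hd i) ((hT m hm.1).2.1 i).1, hm.2]
    by_cases hg : ∀ i j, i ≠ j → α i * b j ≠ α j * b i
    · refine le_trans ?_ (hX0 Y hY5 α b (fun i => ⟨hα1 i, ?_, ?_⟩) hg)
      · refine mul_le_mul_of_nonneg_right (Nat.cast_le.2 ?_) (by positivity)
        refine Finset.card_le_card_of_injOn (fun m => m / Q) (fun m hm => ?_) ?_
        · have hm' := Finset.mem_coe.1 hm
          have h6 := hT m (Finset.mem_filter.1 hm').1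
          rw [Finset.mem_coe, Finset.mem_filter, Finset.mem_range]
          refine ⟨(Nat.div_lt_iff_lt_mul hQ1).2 (by rw [mul_comm]; omega), fun i => ?_⟩
          exact ⟨_, (h6.2.1 i).1, lt_of_le_of_lt hY3 (h6.2.1 i).2, hf m hm' i⟩
        · intro m hm m' hm' e
          have e1 := (Finset.mem_filter.1 (Finset.mem_coe.1 hm)).2
          have e2 := (Finset.mem_filter.1 (Finset.mem_coe.1 hm')).2
          rw [← Nat.div_add_mod m Q, ← Nat.div_add_mod m' Q, e1, e2]
          simp only at e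
          rw [e]
      · exact le_trans (by exact_mod_cast hα2 i) hQM
      · refine le_trans ?_ hQM
        have h7 : r / c i ≤ r := Nat.div_le_self _ _
        have h8 := (hc i).2.2
        have h9 : |b i| ≤ (Q : ℤ) := by
          rw [abs_le]
          simp only [hb]
          generalize r / c i = u at h7 ⊢
          constructor <;> omega
        exact_mod_cast h9
    · rw [Finset.card_eq_zero.2 (Finset.eq_empty_of_forall_notMem fun m hm => hg ?_)]
      · simp only [Nat.cast_zero, zero_mul]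
        positivity
      · intro i j hij e
        have h6 := hT m (Finset.mem_filter.1 hm).1
        have e1 : ((α j * (m / c i - δ i) : ℕ) : ℤ) = ((α i * (m / c j - δ j) : ℕ) : ℤ) := by
          rw [Nat.cast_mul, Nat.cast_mul, hf m hm i, hf m hm j]
          linear_combination -e
        have e2 : (m / c i - δ i) ∣ α i * (m / c j - δ j) :=
          ⟨α j, by rw [← Nat.cast_injective e1, mul_comm]⟩
        rcases ((h6.2.1 i).1.dvd_mul).1 e2 with e3 | e3
        · have e4 := (Nat.le_of_dvd (hα1 i) e3).trans (hα2 i)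
          exact absurd ((Nat.pow_le_pow_left e4 2).trans hQ2) (not_le.2 (h6.2.1 i).2)
        · exact hij (h6.2.2 ((Nat.prime_dvd_prime_iff_eq (h6.2.1 i).1 (h6.2.1 j).1).1 e3))
  have tot : (T.card : ℝ) * M ^ k ≤ Q * (Y * √M) := by
    rw [Finset.card_eq_sum_card_fiberwise (f := fun m => m % Q) (t := Finset.range Q)
      (fun m _ => Finset.mem_coe.2 (Finset.mem_range.2 (Nat.mod_lt _ hQ1))), Nat.cast_sum,
      Finset.sum_mul]
    refine (Finset.sum_le_card_nsmul _ _ _ cls).trans ?_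
    simp
  have hY2' : (Q : ℝ) * Y ≤ 2 * X := by exact_mod_cast hY2
  have e34 : L ^ (3 / 4 : ℝ) = L ^ (1 / 4 : ℝ) * √L := by
    rw [Real.sqrt_eq_rpow, ← Real.rpow_add (by linarith)]
    norm_num
  calc (T.card : ℝ) * L ^ k ≤ T.card * (2 * M) ^ k := by gcongr
    _ = 2 ^ k * (T.card * M ^ k) := by rw [mul_pow]; ring
    _ ≤ 2 ^ k * (Q * (Y * √M)) := by gcongr
    _ = 2 ^ k * (Q * Y) * √M := by ring
    _ ≤ 2 ^ k * (2 * X) * √L := by gcongr
    _ = X * (2 ^ (k + 1) * √L) := by ring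
    _ ≤ _ := by rw [e34]; gcongr

end Pool.Agent.MP_db5b97_nt.H54
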